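import Pool.Agent.Work.MP_b5285d_nt.Few

/-!
# Distinct odd moduli: the lcm has at least eight prime factors

If `1 < m_1 < ... < m_s` are odd and their least common multiple has at most seven distinct prime
factors, then every coset of the subgroup generated by `(1, ..., 1)` in `∏ ZMod (m_i)` contains a
nowhere-zero vector.
-/

namespace Pool.Agent.Results.MP_b5285d_nt.EightPrimes

theorem result :
    ∀ (s : ℕ) (m : Fin s → ℕ), StrictMono m → (∀ i, 1 < m i) → (∀ i, Odd (m i)) →
      (Finset.univ.lcm m).primeFactors.card < 8 →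
      ∀ x : (i : Fin s) → ZMod (m i),
        ∃ y ∈ AddSubgroup.zmultiples (1 : (i : Fin s) → ZMod (m i)),
          ∀ i, (x + y) i ≠ 0 := by
  intro s m hm h1 hodd h8 x
  by_contra hcon
  push Not at hcon
  obtain ⟨r, hr⟩ := OddCov.stmtCoset s m h1 hm.injective ⟨x, hcon⟩
  have h := OddCov.Few.eight (S := Finset.univ.image m) (r := r) (by
    intro k hk
    obtain ⟨i, -, rfl⟩ := Finset.mem_image.1 hk
    exact ⟨h1 i, hodd i⟩) (fun z => hr z)
  rw [Finset.lcm_image] at h
  exact absurd h8 (not_lt.2 h)

end Pool.Agent.Results.MP_b5285d_nt.EightPrimes
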