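import Pool.Agent.Work.MP_b5285d_nt.FinalA
import Pool.Agent.Work.MP_b5285d_nt.Growth3
import Pool.Agent.Work.MP_b5285d_nt.Coset

/-!
# Distinct odd moduli: the least common multiple must be divisible by 45

If `1 < m_1 < ... < m_s` are odd and `45` does not divide their least common multiple, then every
coset of the subgroup generated by `(1, ..., 1)` in `∏ ZMod (m_i)` contains a nowhere-zero vector;
equivalently, in every covering system of the integers with distinct odd moduli `> 1` the least
common multiple of the moduli is divisible by `45`.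
-/

namespace Pool.Agent.Results.MP_b5285d_nt.LcmFortyFive

theorem result :
    ∀ (s : ℕ) (m : Fin s → ℕ), StrictMono m → (∀ i, 1 < m i) → (∀ i, Odd (m i)) →
      ¬ 45 ∣ Finset.univ.lcm m →
      ∀ x : (i : Fin s) → ZMod (m i),
        ∃ y ∈ AddSubgroup.zmultiples (1 : (i : Fin s) → ZMod (m i)),
          ∀ i, (x + y) i ≠ 0 := by
  intro s m hm h1 hodd h45 x
  by_contra hcon
  push Not at hcon
  obtain ⟨r, hr⟩ := OddCov.stmtCoset s m h1 hm.injective ⟨x, hcon⟩
  have h := OddCov.main45 OddCov.stmtGrowth3 (Finset.univ.image m) r (by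
    intro k hk
    obtain ⟨i, -, rfl⟩ := Finset.mem_image.1 hk
    exact ⟨h1 i, hodd i⟩) (fun z => hr z)
  rw [Finset.lcm_image] at h
  exact h45 h

end Pool.Agent.Results.MP_b5285d_nt.LcmFortyFive
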