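import Pool.Agent.Work.MP_b5285d_nt.CapFinal

/-!
# Distinct odd moduli: `7` or `3 ^ 3 * 5 ^ 2 * 11 * 13 * 17 * 19` divides the lcm

If `1 < m_1 < ... < m_s` are odd and their least common multiple is divisible neither by `7` nor by
`3 ^ 3 * 5 ^ 2 * 11 * 13 * 17 * 19`, then every coset of the subgroup generated by `(1, ..., 1)` in
`∏ ZMod (m_i)` contains a nowhere-zero vector.
-/

namespace Pool.Agent.Results.MP_b5285d_nt.SevenAlternative

theorem result :
    ∀ (s : ℕ) (m : Fin s → ℕ), StrictMono m → (∀ i, 1 < m i) → (∀ i, Odd (m i)) →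
      ¬ 7 ∣ Finset.univ.lcm m → ¬ 3 ^ 3 * 5 ^ 2 * 11 * 13 * 17 * 19 ∣ Finset.univ.lcm m →
      ∀ x : (i : Fin s) → ZMod (m i),
        ∃ y ∈ AddSubgroup.zmultiples (1 : (i : Fin s) → ZMod (m i)),
          ∀ i, (x + y) i ≠ 0 := by
  intro s m hm h1 hodd h7 hrest x
  by_contra hcon
  push Not at hcon
  obtain ⟨r, hr⟩ := OddCov.stmtCoset s m h1 hm.injective ⟨x, hcon⟩
  have h := OddCov.Cap.seven (S := Finset.univ.image m) (r := r) (by
    intro k hk
    obtain ⟨i, -, rfl⟩ := Finset.mem_image.1 hk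
    exact ⟨h1 i, hodd i⟩) (fun z => hr z) (by
      rw [Finset.lcm_image]
      exact h7)
  rw [Finset.lcm_image] at h
  exact hrest h

end Pool.Agent.Results.MP_b5285d_nt.SevenAlternative
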